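import Pool.Agent.Helper95_CM.Krel2

/-!
# CM project (MP_31342c_an): module REP, part 1: filtered rings
Degrees in `w` of the coefficients of `Psi`.
-/

set_option autoImplicit false
set_option linter.unusedSectionVars false

noncomputable section

namespace Pool.Agent.Helper95_CM.H17

open MvPolynomial Pool.Agent.Helper95_CM

/-- ring filtration -/
structure Filt (R : Type) [CommRing R] where
  S : ℕ → AddSubgroup R
  mono : ∀ {a b : ℕ}, a ≤ b → S a ≤ S b
  one : (1 : R) ∈ S 0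
  mul : ∀ {a b : ℕ} {x y : R}, x ∈ S a → y ∈ S b → x * y ∈ S (a + b)

namespace Filt
variable {R : Type} [CommRing R] (F : Filt R)

lemma pow {a : ℕ} {x : R} (hx : x ∈ F.S a) (k : ℕ) : x ^ k ∈ F.S (k * a) := by
  induction k with
  | zero => simpa using F.one
  | succ k ih =>
    rw [pow_succ, Nat.succ_mul]
    exact F.mul ih hx

lemma natCast (k : ℕ) (a : ℕ) : (k : R) ∈ F.S a := by
  refine F.mono (Nat.zero_le a) ?_
  induction k with
  | zero => rw [Nat.cast_zero]; exact (F.S 0).zero_mem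
  | succ k ih => rw [Nat.cast_succ]; exact (F.S 0).add_mem ih F.one

lemma mul_zero_left {a : ℕ} {x y : R} (hx : x ∈ F.S 0) (hy : y ∈ F.S a) : x * y ∈ F.S a := by
  have := F.mul hx hy
  rwa [zero_add] at this

end Filt

section pp
variable {n M : ℕ} {R : Type} [CommRing R] {F : Filt R}

/-- all coefficients lie in the step `a` of the filtration -/
def CF (F : Filt R) (a : ℕ) (x : PP n R) : Prop := ∀ s, coeff s x ∈ F.S a

lemma CF.mono {a b : ℕ} (h : a ≤ b) {x : PP n R} (hx : CF F a x) : CF F b x :=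
  fun s => F.mono h (hx s)

lemma CF.zero (a : ℕ) : CF F a (0 : PP n R) := fun s => by
  rw [coeff_zero]; exact (F.S a).zero_mem

lemma CF.add {a : ℕ} {x y : PP n R} (hx : CF F a x) (hy : CF F a y) : CF F a (x + y) :=
  fun s => by rw [coeff_add]; exact (F.S a).add_mem (hx s) (hy s)

lemma CF.neg {a : ℕ} {x : PP n R} (hx : CF F a x) : CF F a (-x) :=
  fun s => by rw [coeff_neg]; exact (F.S a).neg_mem (hx s)

lemma CF.sub {a : ℕ} {x y : PP n R} (hx : CF F a x) (hy : CF F a y) : CF F a (x - y) :=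
  fun s => by rw [coeff_sub]; exact (F.S a).sub_mem (hx s) (hy s)

lemma CF.sum {a : ℕ} {ι : Type} (t : Finset ι) (x : ι → PP n R) (h : ∀ i ∈ t, CF F a (x i)) :
    CF F a (∑ i ∈ t, x i) := fun s => by
  rw [coeff_sum]
  exact (F.S a).sum_mem fun i hi => h i hi s

lemma CF.mul {a b : ℕ} {x y : PP n R} (hx : CF F a x) (hy : CF F b y) : CF F (a + b) (x * y) :=
  fun s => by
    classical
    rw [coeff_mul]
    exact (F.S (a + b)).sum_mem fun i _ => F.mul (hx _) (hy _)

lemma CF.monomial {a : ℕ} {r : R} (s : Expo n) (hr : r ∈ F.S a) :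
    CF F a (MvPolynomial.monomial s r : PP n R) := fun s' => by
  classical
  rw [coeff_monomial]
  split_ifs
  · exact hr
  · exact (F.S a).zero_mem

lemma CF.one : CF F 0 (1 : PP n R) := CF.monomial (0 : Expo n) F.one

lemma CF.pow {a : ℕ} {x : PP n R} (hx : CF F a x) (k : ℕ) : CF F (k * a) (x ^ k) := by
  induction k with
  | zero => simpa using (CF.one (F := F) (n := n))
  | succ k ih =>
    rw [pow_succ, Nat.succ_mul]
    exact ih.mul hx

lemma CF.prod {ι : Type} (t : Finset ι) (x : ι → PP n R) (h : ∀ i ∈ t, CF F 1 (x i)) :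
    CF F t.card (∏ i ∈ t, x i) := by
  classical
  induction t using Finset.induction_on with
  | empty => simpa using (CF.one (F := F) (n := n))
  | insert a t ha ih =>
    rw [Finset.prod_insert ha, Finset.card_insert_of_notMem ha, add_comm]
    exact (h a (Finset.mem_insert_self _ _)).mul
      (ih fun i hi => h i (Finset.mem_insert_of_mem hi))

lemma CF.C_mul {a b : ℕ} {r : R} {x : PP n R} (hr : r ∈ F.S a) (hx : CF F b x) :
    CF F (a + b) (C r * x) := (CF.monomial (0 : Expo n) hr).mul hx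

lemma CF.th {a : ℕ} {x : PP n R} (hx : CF F a x) (i : Fin (n + 1)) : CF F a (th i x) := fun s => by
  rw [coeff_th]
  exact F.mul_zero_left (F.natCast _ 0) (hx s)

lemma CF.Fp {a : ℕ} {c : Grid n M → R} (hc : ∀ β, c β ∈ F.S a) : CF F a (Fp c) :=
  CF.sum _ _ fun β _ => CF.monomial _ (hc β)

lemma CF.Jac {c : Grid n M → R} (hc : ∀ β, c β ∈ F.S 1) : CF F (n + 1) (Jac c) := by
  classical
  unfold Helper95_CM.Jac
  rw [Matrix.det_apply]
  refine CF.sum _ _ fun σ _ => ?_
  have h1 : CF F (n + 1) (∏ i : Fin (n + 1), Hes c (σ i) i) := by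
    have := CF.prod (F := F) (Finset.univ : Finset (Fin (n + 1))) (fun i => Hes c (σ i) i)
      (fun i _ => ((CF.Fp hc).th i).th (σ i))
    rwa [Finset.card_univ, Fintype.card_fin] at this
  rcases Int.units_eq_one_or (Equiv.Perm.sign σ) with h | h
  · rw [h, one_smul]; exact h1
  · rw [h, Units.neg_smul, one_smul]; exact h1.neg

lemma CF.bb {b : Bool} (A : CAD n M b) {c : Grid n M → R} (hc : ∀ β, c β ∈ F.S 1) (s : Expo n) :
    CF F (n + 1) (bb A c s) := by
  unfold Helper95_CM.bb bbo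
  split_ifs
  · exact CF.Jac hc
  · exact (CF.monomial s F.one).mono (Nat.zero_le _)

lemma CF.psi {p : ℕ} (hp : 0 < p) {a : ℕ} {x : PP n R} (hx : CF F a x) : CF F a (psi p x) :=
  fun s => by rw [coeff_psi hp]; exact hx _

lemma CF.expand {a p : ℕ} {x : PP n R} (hx : CF F a x) : CF F a (expand p x) := by
  classical
  have h1 : MvPolynomial.expand p x = ∑ s ∈ x.support, MvPolynomial.monomial (p • s) (coeff s x) := by
    conv_lhs => rw [← support_sum_monomial_coeff x]
    rw [map_sum]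
    refine Finset.sum_congr rfl fun s _ => ?_
    rw [expand_monomial]
  rw [h1]
  exact CF.sum _ _ fun s _ => CF.monomial _ (hx s)

/-- coefficients of `Δ` -/
lemma CF.dl {p : ℕ} {f : R →+* R} {c : Grid n M → R} {Dl : PP n R} (hdl : IsDl p f c Dl)
    (hc : ∀ β, c β ∈ F.S 1) (hf : ∀ β, f (c β) ∈ F.S p)
    (hsat : ∀ x, (p : R) * x ∈ F.S p → x ∈ F.S p) : CF F p Dl := by
  intro s
  apply hsat
  have h1 : C (p : R) * Dl = Helper95_CM.Fp c ^ p -
      MvPolynomial.expand p (Helper95_CM.Fp (fun β => f (c β))) := by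
    rw [eq_sub_iff_add_eq, add_comm]
    exact hdl.symm
  have h2 : CF F p (C (p : R) * Dl) := by
    rw [h1]
    refine CF.sub ?_ (CF.expand (CF.Fp hf))
    have := (CF.Fp (F := F) hc).pow p
    rwa [mul_one] at this
  have h3 := h2 s
  rwa [coeff_C_mul] at h3

lemma CF.tj {p : ℕ} [Fact p.Prime] {z : ℤ_[p] →+* R} (hz : ∀ a, z a ∈ F.S 0) {Dl : PP n R}
    (hdl : CF F p Dl) (J : ℕ) : CF F (J * p) (TJ p z J Dl) := by
  unfold TJ
  refine CF.sum _ _ fun j hj => ?_
  have h1 := CF.C_mul (hz (ee p j)) (hdl.pow j)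
  refine h1.mono ?_
  rw [zero_add]
  exact Nat.mul_le_mul_right _ (Finset.mem_range.1 hj).le

lemma mm_le_one {p l : ℕ} (hp : 0 < p) (hl : l ≤ p) : mm p l ≤ 1 := by
  unfold mm
  rw [Nat.div_le_iff_le_mul_add_pred hp]
  omega

lemma CF.vv {p : ℕ} (hp : 0 < p) {c : Grid n M → R} (hc : ∀ β, c β ∈ F.S 1) {a l : ℕ}
    {x : PP n R} (hx : CF F a x) (hl : LevLe l x) (hlp : l ≤ p) :
    CF F (a + p) (VV p (Helper95_CM.Fp c) x) := by
  unfold VV
  refine CF.sum _ _ fun s hs => ?_
  have h0 : s 0 ≤ p := le_trans (hl s (by simpa using hs)) hlp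
  have h1 : CF F a (MvPolynomial.monomial s ((gam p (s 0) : R) * coeff s x)) :=
    CF.monomial _ (F.mul_zero_left (F.natCast _ 0) (hx s))
  have h2 := (CF.Fp (F := F) hc).pow (p * mm p (s 0) - s 0)
  refine (h1.mul h2).mono ?_
  have h3 : p * mm p (s 0) ≤ p * 1 := Nat.mul_le_mul_left _ (mm_le_one hp h0)
  omega

/-- degrees of the coefficients of `Psi` -/
lemma CF.psiJ {p : ℕ} [Fact p.Prime] {z : ℤ_[p] →+* R} (hz : ∀ a, z a ∈ F.S 0)
    {c : Grid n M → R} (hc : ∀ β, c β ∈ F.S 1) {Dl : PP n R} (hdl : CF F p Dl) {J a l : ℕ}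
    {x : PP n R} (hx : CF F a x) (hl : LevLe l x) (hlp : l ≤ p) :
    CF F (J * p + (a + p)) (Psi p z J (Helper95_CM.Fp c) Dl x) :=
  CF.psi (Fact.out : p.Prime).pos ((CF.tj hz hdl J).mul
    (CF.vv (Fact.out : p.Prime).pos hc hx hl hlp))

end pp

end Pool.Agent.Helper95_CM.H17
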