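import Pool.Agent.Helper17_CM.Filt

/-!
# CM project (MP_31342c_an): module REP, part 2: the filtrations by the degree in `w`
-/

set_option autoImplicit false
set_option linter.unusedSectionVars false

noncomputable section

namespace Pool.Agent.Helper95_CM.H17

open Pool.Agent.Helper95_CM

section gen
variable (𝒪 : Type) [CommRing 𝒪]

/-- polynomials of degree `≤ a` in the variable of a Laurent series ring -/
def filtO : Filt (LaurentSeries 𝒪) where
  S a :=
    { carrier := {x | ∀ m : ℤ, (m < 0 ∨ (a : ℤ) < m) → x.coeff m = 0}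
      zero_mem' := fun m _ => HahnSeries.coeff_zero
      add_mem' := fun {x y} hx hy m hm => by
        rw [HahnSeries.coeff_add, hx m hm, hy m hm, add_zero]
      neg_mem' := fun {x} hx m hm => by
        rw [HahnSeries.coeff_neg, hx m hm, neg_zero] }
  mono {a b} h x hx m hm := hx m (by omega)
  one m hm := by
    rw [HahnSeries.coeff_one, if_neg (by omega)]
  mul {a b x y} hx hy m hm := by
    rw [HahnSeries.coeff_mul]
    apply Finset.sum_eq_zero
    intro ij hij
    rw [Finset.mem_antidiagonal] at hij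
    obtain ⟨h1, h2, h3⟩ := hij
    rw [HahnSeries.mem_support] at h1 h2
    exfalso
    have h4 : 0 ≤ ij.1 ∧ ij.1 ≤ a := by
      by_contra h
      exact h1 (hx _ (by omega))
    have h5 : 0 ≤ ij.2 ∧ ij.2 ≤ b := by
      by_contra h
      exact h2 (hy _ (by omega))
    omega

variable {𝒪}

lemma mem_filtO {a : ℕ} {x : LaurentSeries 𝒪} :
    x ∈ (filtO 𝒪).S a ↔ ∀ m : ℤ, (m < 0 ∨ (a : ℤ) < m) → x.coeff m = 0 := Iff.rfl

lemma ordGe_of_mem_filtO {a : ℕ} {x : LaurentSeries 𝒪} (hx : x ∈ (filtO 𝒪).S a) : OrdGe 0 x :=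
  fun m hm => hx m (Or.inl hm)

/-- power series all of whose coefficients lie in a step of a filtration -/
def filtT (F : Filt 𝒪) : Filt (LaurentSeries 𝒪) where
  S a :=
    { carrier := {x | OrdGe 0 x ∧ ∀ m : ℤ, x.coeff m ∈ F.S a}
      zero_mem' := ⟨fun m _ => HahnSeries.coeff_zero, fun m => by
        rw [HahnSeries.coeff_zero]; exact (F.S a).zero_mem⟩
      add_mem' := fun {x y} hx hy => ⟨hx.1.add hy.1, fun m => by
        rw [HahnSeries.coeff_add]; exact (F.S a).add_mem (hx.2 m) (hy.2 m)⟩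
      neg_mem' := fun {x} hx => ⟨hx.1.neg, fun m => by
        rw [HahnSeries.coeff_neg]; exact (F.S a).neg_mem (hx.2 m)⟩ }
  mono {a b} h x hx := ⟨hx.1, fun m => F.mono h (hx.2 m)⟩
  one := ⟨ordGe_one, fun m => by
    rw [HahnSeries.coeff_one]
    split_ifs
    · exact F.one
    · exact (F.S 0).zero_mem⟩
  mul {a b x y} hx hy := ⟨by
      have := hx.1.mul hy.1
      simpa using this, fun m => by
    rw [HahnSeries.coeff_mul]
    exact (F.S (a + b)).sum_mem fun ij _ => F.mul (hx.2 _) (hy.2 _)⟩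

lemma mem_filtT {F : Filt 𝒪} {a : ℕ} {x : LaurentSeries 𝒪} :
    x ∈ (filtT F).S a ↔ OrdGe 0 x ∧ ∀ m : ℤ, x.coeff m ∈ F.S a := Iff.rfl

lemma C_mem_filtT {F : Filt 𝒪} {a : ℕ} {x : 𝒪} (hx : x ∈ F.S a) :
    (HahnSeries.C x : LaurentSeries 𝒪) ∈ (filtT F).S a := by
  refine ⟨ordGe_C _, fun m => ?_⟩
  rw [HahnSeries.C_apply, HahnSeries.coeff_single]
  split_ifs
  · exact hx
  · exact (F.S a).zero_mem

lemma tt_mem_filtT {F : Filt 𝒪} : tt 𝒪 ∈ (filtT F).S 0 := by
  constructor
  · intro m hm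
    unfold tt
    rw [HahnSeries.coeff_single_of_ne (by omega)]
  · intro m
    unfold tt
    rw [HahnSeries.coeff_single]
    split_ifs
    · exact F.one
    · exact (F.S 0).zero_mem

lemma C_mem_filtO (x : 𝒪) : (HahnSeries.C x : LaurentSeries 𝒪) ∈ (filtO 𝒪).S 0 := by
  intro m hm
  rw [HahnSeries.C_apply, HahnSeries.coeff_single_of_ne (by omega)]

lemma tt_mem_filtO : tt 𝒪 ∈ (filtO 𝒪).S 1 := by
  intro m hm
  unfold tt
  rw [HahnSeries.coeff_single_of_ne (by push_cast at hm; omega)]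

lemma natCast_mul_coeff (p : ℕ) (x : LaurentSeries 𝒪) (i : ℤ) :
    ((p : LaurentSeries 𝒪) * x).coeff i = (p : 𝒪) * x.coeff i := by
  rw [← map_natCast (HahnSeries.C : 𝒪 →+* LaurentSeries 𝒪), HahnSeries.C_mul_eq_smul,
    HahnSeries.coeff_smul, smul_eq_mul]

lemma sat_filtO {p : ℕ} (htf : ∀ x : 𝒪, (p : 𝒪) * x = 0 → x = 0) {a : ℕ} {x : LaurentSeries 𝒪}
    (hx : (p : LaurentSeries 𝒪) * x ∈ (filtO 𝒪).S a) : x ∈ (filtO 𝒪).S a := by
  intro m hm
  apply htf
  rw [← natCast_mul_coeff]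
  exact hx m hm

lemma sat_filtT {F : Filt 𝒪} {p : ℕ} {a : ℕ}
    (hF : ∀ x, (p : 𝒪) * x ∈ F.S a → x ∈ F.S a) (htf : ∀ x : 𝒪, (p : 𝒪) * x = 0 → x = 0)
    {x : LaurentSeries 𝒪} (hx : (p : LaurentSeries 𝒪) * x ∈ (filtT F).S a) :
    x ∈ (filtT F).S a := by
  constructor
  · intro m hm
    apply htf
    rw [← natCast_mul_coeff]
    exact hx.1 m hm
  · intro m
    apply hF
    rw [← natCast_mul_coeff]
    exact hx.2 m

lemma phT_filtO {p : ℕ} (hp : 0 < p) (f : 𝒪 →+* 𝒪) {a : ℕ} {x : LaurentSeries 𝒪}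
    (hx : x ∈ (filtO 𝒪).S a) : phT p f x ∈ (filtO 𝒪).S (p * a) := by
  intro m hm
  by_cases h : (p : ℤ) ∣ m
  · obtain ⟨k, rfl⟩ := h
    have hp' : (0 : ℤ) < p := by exact_mod_cast hp
    rw [phT_coeff hp, hx k ?_, map_zero]
    rcases hm with hm | hm
    · left
      nlinarith
    · right
      push_cast at hm
      nlinarith
  · exact phT_coeff_ne hp f x m h

lemma phT_filtT {F : Filt 𝒪} {p : ℕ} (hp : 0 < p) (f : 𝒪 →+* 𝒪) {a b : ℕ}
    (hf : ∀ x, x ∈ F.S a → f x ∈ F.S b) {x : LaurentSeries 𝒪}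
    (hx : x ∈ (filtT F).S a) : phT p f x ∈ (filtT F).S b := by
  constructor
  · have := hx.1.phT hp f
    simpa using this
  · intro m
    by_cases h : (p : ℤ) ∣ m
    · obtain ⟨k, rfl⟩ := h
      rw [phT_coeff hp]
      exact hf _ (hx.2 k)
    · rw [phT_coeff_ne hp f x m h]
      exact (F.S b).zero_mem

lemma phT_single {p : ℕ} (hp : 0 < p) (f : 𝒪 →+* 𝒪) (l : ℤ) (a : 𝒪) :
    phT p f (HahnSeries.single l a : LaurentSeries 𝒪) = HahnSeries.single ((p : ℤ) * l) (f a) := by
  ext m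
  by_cases h : (p : ℤ) ∣ m
  · obtain ⟨k, rfl⟩ := h
    rw [phT_coeff hp]
    by_cases hk : k = l
    · subst hk
      rw [HahnSeries.coeff_single_same, HahnSeries.coeff_single_same]
    · have hp' : (p : ℤ) ≠ 0 := by exact_mod_cast hp.ne'
      rw [HahnSeries.coeff_single_of_ne hk, map_zero, HahnSeries.coeff_single_of_ne]
      intro h2
      exact hk (mul_left_cancel₀ hp' h2)
  · rw [phT_coeff_ne hp f _ m h, HahnSeries.coeff_single_of_ne]
    rintro rfl
    exact h (dvd_mul_right _ _)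

/-- truncation -/
def trn (a b : ℤ) (x : LaurentSeries 𝒪) : LaurentSeries 𝒪 :=
  ∑ l ∈ Finset.Icc a b, HahnSeries.single l (x.coeff l)

lemma coeff_trn (a b : ℤ) (x : LaurentSeries 𝒪) (m : ℤ) :
    (trn a b x).coeff m = if a ≤ m ∧ m ≤ b then x.coeff m else 0 := by
  classical
  unfold trn
  rw [HahnSeries.coeff_sum]
  have h1 : ∀ l ∈ Finset.Icc a b, (HahnSeries.single l (x.coeff l) : LaurentSeries 𝒪).coeff m =
      if l = m then x.coeff m else 0 := by
    intro l _
    by_cases h : l = m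
    · subst h
      rw [HahnSeries.coeff_single_same, if_pos rfl]
    · rw [HahnSeries.coeff_single_of_ne (Ne.symm h), if_neg h]
  rw [Finset.sum_congr rfl h1, Finset.sum_ite_eq' (Finset.Icc a b) m]
  simp only [Finset.mem_Icc]

lemma eq_trn {a b : ℤ} {x : LaurentSeries 𝒪} (h1 : OrdGe a x) (h2 : ∀ m, b < m → x.coeff m = 0) :
    trn a b x = x := by
  ext m
  rw [coeff_trn]
  split_ifs with h
  · rfl
  · rw [not_and_or, not_le, not_le] at h
    rcases h with h | h
    · rw [h1 m h]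
    · rw [h2 m h]

lemma single_mul_coeff (l : ℤ) (a : 𝒪) (x : LaurentSeries 𝒪) (m : ℤ) :
    ((HahnSeries.single l a : LaurentSeries 𝒪) * x).coeff m = a * x.coeff (m - l) := by
  have := HahnSeries.coeff_single_mul_add (r := a) (x := x) (a := m - l) (b := l)
  rwa [sub_add_cancel] at this

lemma coeff_phT_mul {p : ℕ} (hp : 0 < p) (f : 𝒪 →+* 𝒪) {Y X : LaurentSeries 𝒪} {e L m : ℤ}
    (hY : OrdGe e Y) (hX : OrdGe 0 X) (hm : m < p * (L + 1)) :
    (phT p f Y * X).coeff m =
      ∑ l ∈ Finset.Icc e L, f (Y.coeff l) * X.coeff (m - p * l) := by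
  have h1 : Y = trn e L Y + (Y - trn e L Y) := by ring
  have h2 : OrdGe (L + 1) (Y - trn e L Y) := by
    intro i hi
    rw [HahnSeries.coeff_sub, coeff_trn]
    split_ifs with h
    · rw [sub_self]
    · rw [sub_zero]
      apply hY
      by_contra h3
      apply h
      constructor
      · omega
      · omega
  have h3 : (phT p f (Y - trn e L Y) * X).coeff m = 0 := by
    have h4 := (h2.phT hp f).mul hX
    apply h4
    rw [add_zero]
    exact hm
  conv_lhs => rw [h1]
  rw [map_add, add_mul, HahnSeries.coeff_add, h3, add_zero]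
  unfold trn
  rw [map_sum, Finset.sum_mul, HahnSeries.coeff_sum]
  refine Finset.sum_congr rfl fun l _ => ?_
  rw [phT_single hp, single_mul_coeff]

/-- coefficients of `φ(Y) X U` for a Laurent polynomial `U` -/
lemma coeff_triple {p : ℕ} (hp : 0 < p) (f : 𝒪 →+* 𝒪) {Y X U : LaurentSeries 𝒪}
    {e L m a b : ℤ} (hY : OrdGe e Y) (hX : OrdGe 0 X) (hU : OrdGe a U)
    (hU2 : ∀ m, b < m → U.coeff m = 0) (hm : m - a < p * (L + 1)) :
    (phT p f Y * X * U).coeff m = ∑ k ∈ Finset.Icc a b, ∑ l ∈ Finset.Icc e L,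
      f (Y.coeff l) * X.coeff (m - k - p * l) * U.coeff k := by
  conv_lhs => rw [← eq_trn hU hU2]
  unfold trn
  rw [Finset.mul_sum, HahnSeries.coeff_sum]
  refine Finset.sum_congr rfl fun k hk => ?_
  rw [mul_comm _ (HahnSeries.single k (U.coeff k) : LaurentSeries 𝒪), single_mul_coeff,
    coeff_phT_mul (L := L) hp f hY hX ?_, Finset.mul_sum]
  · refine Finset.sum_congr rfl fun l _ => ?_
    rw [mul_comm]
  · rw [Finset.mem_Icc] at hk
    omega

end gen

section poly
variable {q : ℕ} {R : Type} [CommRing R]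

lemma wO_mem : wO q R ∈ (filtO (CC q R)).S 1 := tt_mem_filtO

lemma C_mul_wO_pow (a : CC q R) (k : ℕ) :
    (HahnSeries.C a : OO q R) * wO q R ^ k = HahnSeries.single (k : ℤ) a := by
  have h0 : (wO q R) ^ k = HahnSeries.single (k : ℤ) (1 : CC q R) := by
    unfold wO tt
    rw [HahnSeries.single_pow, one_pow]
    congr 1
    simp
  rw [h0]
  change HahnSeries.single (0 : ℤ) a * HahnSeries.single (k : ℤ) (1 : CC q R) = _
  rw [HahnSeries.single_mul_single, zero_add, mul_one]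

lemma exists_poly {a : ℕ} {x : OO q R} (hx : x ∈ (filtO (CC q R)).S a) :
    ∃ g : Polynomial (CC q R), g.natDegree ≤ a ∧ g.eval₂ HahnSeries.C (wO q R) = x := by
  refine ⟨∑ i ∈ Finset.range (a + 1), Polynomial.monomial i (x.coeff (i : ℤ)), ?_, ?_⟩
  · apply Polynomial.natDegree_sum_le_of_forall_le
    intro i hi
    have := Finset.mem_range.1 hi
    exact le_trans (Polynomial.natDegree_monomial_le _) (by omega)
  · rw [Polynomial.eval₂_finsetSum]
    ext m
    rw [HahnSeries.coeff_sum]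
    have h1 : ∀ i ∈ Finset.range (a + 1), HahnSeries.coeff (Polynomial.eval₂ HahnSeries.C
        (wO q R) (Polynomial.monomial i (x.coeff (i : ℤ)))) m =
        if (i : ℤ) = m then x.coeff m else 0 := by
      intro i _
      rw [Polynomial.eval₂_monomial, C_mul_wO_pow]
      by_cases h : (i : ℤ) = m
      · rw [if_pos h, h, HahnSeries.coeff_single_same]
      · rw [if_neg h, HahnSeries.coeff_single_of_ne (Ne.symm h)]
    rw [Finset.sum_congr rfl h1]
    by_cases hm : m < 0 ∨ (a : ℤ) < m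
    · rw [hx m hm]
      simp
    · push Not at hm
      obtain ⟨k, rfl⟩ := Int.eq_ofNat_of_zero_le hm.1
      rw [Finset.sum_eq_single k]
      · rw [if_pos rfl]
      · intro i _ hi
        rw [if_neg]
        exact_mod_cast hi
      · intro hk
        exfalso
        apply hk
        rw [Finset.mem_range]
        have := hm.2
        omega

lemma poly_mem (g : Polynomial (CC q R)) :
    g.eval₂ HahnSeries.C (wO q R) ∈ (filtO (CC q R)).S g.natDegree := by
  rw [Polynomial.eval₂_eq_sum_range]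
  refine AddSubgroup.sum_mem _ fun i hi => ?_
  have h1 := (filtO (CC q R)).mul_zero_left (C_mem_filtO (g.coeff i))
    ((filtO (CC q R)).pow (wO_mem (q := q) (R := R)) i)
  refine (filtO (CC q R)).mono ?_ h1
  have := Finset.mem_range.1 hi
  omega

/-- the filtration of `LL q R` by the degree in `w` -/
def filtLL (q : ℕ) (R : Type) [CommRing R] : Filt (LL q R) := filtT (filtO (CC q R))

lemma kL_mem (a : R) : kL q R a ∈ (filtLL q R).S 0 := C_mem_filtT (C_mem_filtO _)

lemma wL_mem : wL q R ∈ (filtLL q R).S 1 := C_mem_filtT wO_mem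

lemma vL_mem (i : Fin q) : vL q R i ∈ (filtLL q R).S 0 := C_mem_filtT (C_mem_filtO _)

lemma tL_mem : tL q R ∈ (filtLL q R).S 0 := tt_mem_filtT

lemma cgen_mem {n M : ℕ} (D : ℕ) (f : MvPolynomial (Fin n) R) (β : Grid n M) :
    cgen D f β ∈ (filtLL (qG n M) R).S 1 := by
  unfold cgen
  set F := filtLL (qG n M) R
  refine (F.S 1).add_mem ((F.S 1).sub_mem (F.natCast _ 1) ?_) ?_
  · exact F.mul wL_mem (kL_mem _)
  · have h1 := F.pow (tL_mem (q := qG n M) (R := R)) D
    rw [mul_zero] at h1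
    exact F.mono (Nat.zero_le _) (F.mul_zero_left h1 (vL_mem (gi β)))

lemma phL_mem {p : ℕ} (hp : 0 < p) {a : ℕ} {x : LL q R} (hx : x ∈ (filtLL q R).S a) :
    phL q R p x ∈ (filtLL q R).S (p * a) :=
  phT_filtT hp _ (fun _ h => phT_filtO hp _ h) hx

end poly

end Pool.Agent.Helper95_CM.H17
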