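import Pool.Agent.Helper17_CM.RepB

/-!
# CM project (MP_31342c_an): module REP
Representation of the coefficients of the Frobenius matrix.
-/

set_option autoImplicit false
set_option linter.unusedSectionVars false

noncomputable section

namespace Pool.Agent.Helper95_CM.H17

open MvPolynomial Pool.Agent.Helper95_CM

lemma fin_bound {ι : Type} [Finite ι] (P : ι → ℕ → Prop)
    (hm : ∀ i a b, a ≤ b → P i a → P i b) (h : ∀ i, ∃ a, P i a) : ∃ a, ∀ i, P i a := by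
  classical
  have := Fintype.ofFinite ι
  choose g hg using h
  exact ⟨Finset.univ.sup g, fun i => hm i _ _ (Finset.le_sup (Finset.mem_univ i)) (hg i)⟩

section nf
variable {q : ℕ} {K : Type} [Field K]

lemma evw_coeff (P : Polynomial (CC q K)) (m : ℕ) :
    (P.eval₂ HahnSeries.C (wO q K)).coeff (m : ℤ) = P.coeff m := by
  induction P using Polynomial.induction_on' with
  | add P Q hP hQ =>
    rw [Polynomial.eval₂_add, HahnSeries.coeff_add, hP, hQ, Polynomial.coeff_add]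
  | monomial k a =>
    rw [Polynomial.eval₂_monomial, C_mul_wO_pow, Polynomial.coeff_monomial]
    split_ifs with h
    · subst h
      exact HahnSeries.coeff_single_same _ _
    · apply HahnSeries.coeff_single_of_ne
      intro h2
      apply h
      exact_mod_cast h2.symm

/-- denominators of the elements of `kF` -/
lemma den [NumberField K] (hSpo : SpoStmt) (x : OO q K) (hx : x ∈ kF q K) :
    ∃ (d : ℕ) (b : OO q K), b ∈ kF q K ∧ b ≠ 0 ∧ b ∈ (filtO (CC q K)).S d ∧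
      x * b ∈ (filtO (CC q K)).S d := by
  obtain ⟨-, -, ⟨A, B, hA, hB, hB0, hAB⟩, -⟩ := hSpo q K x hx
  refine ⟨max A.natDegree B.natDegree, B.eval₂ HahnSeries.C (wO q K), ?_, ?_, ?_, ?_⟩
  · rw [Polynomial.eval₂_eq_sum_range]
    refine Subfield.sum_mem _ fun i _ => mul_mem ?_ (pow_mem ?_ i)
    · exact Subfield.subset_closure (Or.inl ⟨_, hB i, rfl⟩)
    · exact Subfield.subset_closure (Or.inr rfl)
  · intro h
    apply hB0
    ext1 m
    rw [← evw_coeff, h]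
    simp
  · exact (filtO (CC q K)).mono (le_max_right _ _) (poly_mem B)
  · rw [hAB]
    exact (filtO (CC q K)).mono (le_max_left _ _) (poly_mem A)

/-- lifts of the denominators are units -/
lemma unit_lift [NumberField K] (hSpo : SpoStmt) (b : OO q K) (hb : b ∈ kF q K) (hb0 : b ≠ 0) :
    ∃ p0 : ℕ, ∀ (p : ℕ) [Fact p.Prime], p0 ≤ p → ∀ ι : K →+* ℚ_[p],
      ∃ b' bi' : OO q ℤ_[p], mO q ι b = mO q (zq p) b' ∧ b' * bi' = 1 := by
  obtain ⟨⟨p1, h1⟩, -, -, h3⟩ := hSpo q K b hb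
  obtain ⟨p2, h2⟩ := h3 hb0
  refine ⟨max p1 p2, fun p _ hp ι => ?_⟩
  obtain ⟨b', hb'⟩ := h1 p (le_trans (le_max_left _ _) hp) ι
  obtain ⟨bi', hbi⟩ := (h2 p (le_trans (le_max_right _ _) hp) ι b' hb').exists_right_inv
  exact ⟨b', bi', hb', hbi⟩

variable {p : ℕ} [Fact p.Prime] (ι : K →+* ℚ_[p])

lemma mC_inj : Function.Injective (mC q (zq p)) := by
  intro x y h
  ext g
  have h1 := congrArg (fun z => HahnSeries.coeff z g) h
  exact IsFractionRing.injective ℤ_[p] ℚ_[p] h1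

lemma mO_inj : Function.Injective (mO q (zq p)) := by
  intro x y h
  refine HahnSeries.ext (funext fun m => ?_)
  have h1 := congrArg (fun z => HahnSeries.coeff z m) h
  exact mC_inj h1

variable {ι}

lemma lift_mem {x : OO q K} {x' : OO q ℤ_[p]} (h : mO q ι x = mO q (zq p) x') {a : ℕ}
    (hx : x ∈ (filtO (CC q K)).S a) : x' ∈ (filtO (CC q ℤ_[p])).S a := by
  intro m hm
  apply mC_inj
  have h1 : mC q ι (x.coeff m) = mC q (zq p) (x'.coeff m) :=
    congrArg (fun z => HahnSeries.coeff z m) h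
  rw [← h1, hx m hm, map_zero, map_zero]

lemma lift_ordO {x : OO q K} {x' : OO q ℤ_[p]} (h : mO q ι x = mO q (zq p) x') {a : ℤ}
    (hx : OrdGe a x) : OrdGe a x' := by
  intro m hm
  apply mC_inj
  have h1 : mC q ι (x.coeff m) = mC q (zq p) (x'.coeff m) :=
    congrArg (fun z => HahnSeries.coeff z m) h
  rw [← h1, hx m hm, map_zero, map_zero]

lemma lift_coeff {x : LL q K} {x' : LL q ℤ_[p]} (h : mL q ι x = mL q (zq p) x') (m : ℤ) :
    mO q ι (x.coeff m) = mO q (zq p) (x'.coeff m) :=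
  congrArg (fun z => HahnSeries.coeff z m) h

lemma lift_zero {x : LL q K} {x' : LL q ℤ_[p]} (h : mL q ι x = mL q (zq p) x') {m : ℤ}
    (hx : x.coeff m = 0) : x'.coeff m = 0 := by
  apply mO_inj
  rw [← lift_coeff h m, hx, map_zero, map_zero]

lemma lift_ordL {x : LL q K} {x' : LL q ℤ_[p]} (h : mL q ι x = mL q (zq p) x') {a : ℤ}
    (hx : OrdGe a x) : OrdGe a x' := fun m hm => lift_zero h (hx m hm)

end nf

/-- the matrix `Pv` in terms of the coefficients of `Psi` -/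
lemma Pv_eq (hb3 : Hb3Stmt) (hpco : PcoStmt) (hfrb : FrbStmt) (hjc : JConeStmt)
    {n M D p N : ℕ} [Fact p.Prime] (A : CAD n M true) (f' : MvPolynomial (Fin n) ℤ_[p])
    (Dl : PP n (LL (qG n M) ℤ_[p])) (U' Ui' : Matrix A.Bas A.Bas (LL (qG n M) ℤ_[p]))
    (h1 : 1 ≤ n) (h2 : 2 ≤ M) (hnp : n + 1 ≤ p)
    (hdl : IsDl p (phL (qG n M) ℤ_[p] p) (cgen D f') Dl)
    (hun : IsUnit (dt A (cgen (M := M) D f'))) (Sg : Finset (Expo n))
    (hSg : ∀ σ : Expo n, InCone M true σ → σ 0 ≤ 2 * N + 1 → σ ∈ Sg) (i j : A.Bas) :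
    Pv A D N p f' Dl U' Ui' i j = ∑ s : A.Bas, ∑ σ : Sg,
      phL (qG n M) ℤ_[p] p (∑ a, Ui' i a * crd A (cgen D f') (mon σ.1) a) *
        coeff σ.1 (Psi p (kL (qG n M) ℤ_[p]) (2 * N) (Fp (cgen (M := M) D f')) Dl
          (bb A (cgen D f') s)) * U' s j := by
  have hF := (hfrb (qG n M) p).1
  obtain ⟨-, hpsi⟩ := hpco n M p true (LL (qG n M) ℤ_[p]) (kL (qG n M) ℤ_[p])
    (phL (qG n M) ℤ_[p] p) (thLt (qG n M) ℤ_[p]) (cgen (M := M) D f') Dl (2 * N) (n + 1) ⊤ hF hdl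
    (subB_top p _ _ _ _)
  have hpm : ∀ a s : A.Bas, Pm A p (kL (qG n M) ℤ_[p]) N (phL (qG n M) ℤ_[p] p)
      (cgen D f') Dl a s = ∑ σ : Sg,
        coeff σ.1 (Psi p (kL (qG n M) ℤ_[p]) (2 * N) (Fp (cgen (M := M) D f')) Dl
          (bb A (cgen D f') s)) *
        phL (qG n M) ℤ_[p] p (crd A (cgen D f') (mon σ.1) a) := by
    intro a s
    obtain ⟨hco, hlv⟩ := bb_cone hjc A (cgen (M := M) D f') h1 (by omega) s
    obtain ⟨hc1, hc2, -⟩ := hpsi _ hco hlv (fun _ => Subring.mem_top _)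
    unfold Pm
    rw [Matrix.of_apply]
    set x := Psi p (kL (qG n M) ℤ_[p]) (2 * N) (Fp (cgen (M := M) D f')) Dl
      (bb A (cgen D f') s) with hx
    have hsup : x.support ⊆ Sg := by
      intro σ hσ
      rw [mem_support_iff] at hσ
      refine hSg σ (hc1 σ hσ) ?_
      have h3 := hc2 σ hσ
      have h4 : mm p (n + 1) ≤ 1 := mm_le_one (Fact.out : p.Prime).pos hnp
      omega
    have hxs : x = ∑ σ ∈ Sg, C (coeff σ x) * mon σ := by
      conv_lhs => rw [eq_sum_mon x]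
      refine Finset.sum_subset hsup fun σ _ hσ => ?_
      rw [notMem_support_iff.1 hσ, map_zero, zero_mul]
    conv_lhs => rw [hxs]
    rw [map_sum, Finset.sum_apply, ← Finset.sum_coe_sort Sg]
    refine Finset.sum_congr rfl fun σ _ => ?_
    rw [← smul_eq_C_mul, map_smul, Pi.smul_apply, smul_eq_mul]
    congr 1
    have h5 := hb3 n M true A (LL (qG n M) ℤ_[p]) (LL (qG n M) ℤ_[p])
      (phL (qG n M) ℤ_[p] p) (cgen D f') h1 (by omega) hun (mon σ.1) a
    rw [map_mon] at h5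
    exact h5
  unfold Pv
  rw [Matrix.mul_apply]
  refine Finset.sum_congr rfl fun s _ => ?_
  rw [Matrix.mul_apply, Finset.sum_mul]
  have h6 : ∀ a : A.Bas, (Ui'.map (phL (qG n M) ℤ_[p] p)) i a *
      Pm A p (kL (qG n M) ℤ_[p]) N (phL (qG n M) ℤ_[p] p) (cgen D f') Dl a s * U' s j =
      ∑ σ : Sg, phL (qG n M) ℤ_[p] p (Ui' i a * crd A (cgen D f') (mon σ.1) a) *
        coeff σ.1 (Psi p (kL (qG n M) ℤ_[p]) (2 * N) (Fp (cgen (M := M) D f')) Dl
          (bb A (cgen D f') s)) * U' s j := by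
    intro a
    rw [hpm, Matrix.map_apply, Finset.mul_sum, Finset.sum_mul]
    refine Finset.sum_congr rfl fun σ _ => ?_
    rw [map_mul]
    ring
  rw [Finset.sum_congr rfl fun a _ => h6 a, Finset.sum_comm]
  refine Finset.sum_congr rfl fun σ _ => ?_
  rw [map_sum, Finset.sum_mul, Finset.sum_mul]

/-- degrees in `w` of the coefficients of `Psi` -/
lemma psi_deg (hFrb : FrbStmt) {n M D p N : ℕ} [Fact p.Prime] (hjc : JConeStmt)
    (A : CAD n M true) (h1 : 1 ≤ n) (h2 : 2 ≤ M)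
    (f' : MvPolynomial (Fin n) ℤ_[p])
    (Dl : PP n (LL (qG n M) ℤ_[p])) (hnp : n + 1 ≤ p)
    (hdl : IsDl p (phL (qG n M) ℤ_[p] p) (cgen D f') Dl) (s : A.Bas) (σ : Expo n) :
    coeff σ (Psi p (kL (qG n M) ℤ_[p]) (2 * N) (Fp (cgen (M := M) D f')) Dl
      (bb A (cgen D f') s)) ∈ (filtLL (qG n M) ℤ_[p]).S ((2 * N + n + 2) * p) := by
  have hp := (Fact.out : p.Prime).pos
  set F := filtLL (qG n M) ℤ_[p] with hF
  have hc : ∀ β, cgen (M := M) D f' β ∈ F.S 1 := fun β => cgen_mem D f' β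
  have hfc : ∀ β, phL (qG n M) ℤ_[p] p (cgen (M := M) D f' β) ∈ F.S p := by
    intro β
    have := phL_mem hp (hc β)
    rwa [mul_one] at this
  have htfC : ∀ y : CC (qG n M) ℤ_[p], (p : CC (qG n M) ℤ_[p]) * y = 0 → y = 0 := by
    intro y hy
    have h3 : (HahnSeries.C (HahnSeries.C y) : LL (qG n M) ℤ_[p]) = 0 := by
      apply (hFrb (qG n M) p).1.tf
      have h4 : (p : LL (qG n M) ℤ_[p]) =
          HahnSeries.C (HahnSeries.C (p : CC (qG n M) ℤ_[p])) := by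
        rw [map_natCast, map_natCast]
      rw [h4, ← map_mul, ← map_mul, hy, map_zero, map_zero]
    have h5 := congrArg (fun z => HahnSeries.coeff (HahnSeries.coeff z 0) 0) h3
    simpa using h5
  have htfO : ∀ y : OO (qG n M) ℤ_[p], (p : OO (qG n M) ℤ_[p]) * y = 0 → y = 0 :=
    (hFrb (qG n M) p).2.2.1.tf
  have hDl : CF F p Dl := CF.dl hdl hc hfc fun x hx =>
    sat_filtT (fun y hy => sat_filtO htfC hy) htfO hx
  have h3 := CF.psiJ (F := F) (z := kL (qG n M) ℤ_[p]) (fun a => kL_mem a) hc hDl (J := 2 * N)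
    (CF.bb A hc s.1) (bb_cone hjc A (cgen (M := M) D f') h1 (by omega) s).2 hnp
  refine F.mono ?_ (h3 σ)
  have : n + 1 ≤ (n + 1) * p := Nat.le_mul_of_pos_right _ hp
  calc 2 * N * p + (n + 1 + p) ≤ 2 * N * p + ((n + 1) * p + p) := by omega
    _ = (2 * N + n + 2) * p := by ring

theorem rep (hb3 : Hb3Stmt) (hpco : PcoStmt) (hFrb : FrbStmt) (hjc : JConeStmt)
    (hCgp : CgpStmt) (hCgu : CguStmt) (hSpo : SpoStmt) (hSpg : SpgStmt) : RepStmt := by
  classical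
  intro n M D A K _ _ f U Ui Rv hG hUL N X hN
  obtain ⟨SG, hSG⟩ := (hSpg (qG n M) K).1
  have hzero : InG (0 : LL (qG n M) K) := (hSG 0).1 SG.zero_mem
  have hone : InG (1 : LL (qG n M) K) := (hSG 1).1 SG.one_mem
  have hcrd : ∀ (σ : Expo n) a, InG (crd A (cgen D f) (mon σ : PP n (LL (qG n M) K)) a) := by
    intro σ a
    refine (hCgu n M D true A K f hG).2.2.2.1 _ (fun s => ?_) a
    unfold mon
    rw [coeff_monomial]
    split_ifs
    · exact hone
    · exact hzero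
  -- exponents
  obtain ⟨Sg, hSg⟩ : ∃ Sg : Finset (Expo n),
      ∀ σ : Expo n, InCone M true σ → σ 0 ≤ 2 * N + 1 → σ ∈ Sg := by
    refine ⟨Finset.Iic (Finsupp.equivFunOnFinite.symm fun _ => (M + 1) * (2 * N + 1)), ?_⟩
    intro σ h3 h4
    rw [Finset.mem_Iic]
    intro i
    change σ i ≤ (M + 1) * (2 * N + 1)
    refine Fin.cases ?_ (fun k => ?_) i
    · calc σ 0 ≤ 2 * N + 1 := h4
        _ ≤ (M + 1) * (2 * N + 1) := Nat.le_mul_of_pos_left _ (by omega)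
    · have h5 := (h3 k).2
      calc σ k.succ ≤ M * σ 0 := h5.le
        _ ≤ (M + 1) * (2 * N + 1) := Nat.mul_le_mul (by omega) h4
  set Y : A.Bas → Sg → LL (qG n M) K :=
    fun i σ => ∑ a, Ui i a * crd A (cgen D f) (mon σ.1) a with hYdef
  have hYG : ∀ i σ, InG (Y i σ) := by
    intro i σ
    rw [← hSG]
    refine Subfield.sum_mem _ fun a _ => mul_mem ?_ ?_
    · rw [hSG]; exact hUL.gUi i a
    · rw [hSG]; exact hcrd σ.1 a
  obtain ⟨aU, haU⟩ := hUL.lp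
  obtain ⟨eU, heU⟩ : ∃ eU : ℕ, ∀ sj : A.Bas × A.Bas, OrdGe (-(eU : ℤ)) (U sj.1 sj.2) :=
    fin_bound _ (fun sj a b hab h => OrdGe.mono h (by omega)) fun sj => exists_ordGe _
  obtain ⟨eY, heY⟩ : ∃ eY : ℕ, ∀ iσ : A.Bas × Sg, OrdGe (-(eY : ℤ)) (Y iσ.1 iσ.2) :=
    fin_bound _ (fun iσ a b hab h => OrdGe.mono h (by omega)) fun iσ => exists_ordGe _
  obtain ⟨L, hL⟩ : ∃ L : ℤ, L = (X + eU : ℕ) := ⟨_, rfl⟩
  obtain ⟨e1, he1⟩ : ∃ e1 : ℕ, ∀ iσl : A.Bas × Sg × Finset.Icc (-(eY : ℤ)) L,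
      OrdGe (-(e1 : ℤ)) ((Y iσl.1 iσl.2.1).coeff iσl.2.2.1) :=
    fin_bound _ (fun iσ a b hab h => OrdGe.mono h (by omega)) fun iσ => exists_ordGe _
  obtain ⟨e2, he2⟩ : ∃ e2 : ℕ, ∀ sjk : A.Bas × A.Bas × Finset.Icc (-(eU : ℤ)) aU,
      OrdGe (-(e2 : ℤ)) ((U sjk.1 sjk.2.1).coeff sjk.2.2.1) :=
    fin_bound _ (fun iσ a b hab h => OrdGe.mono h (by omega)) fun iσ => exists_ordGe _
  have hden : ∀ sjk : A.Bas × A.Bas × Finset.Icc (-(eU : ℤ)) aU,
      ∃ (d : ℕ) (b : OO (qG n M) K), b ∈ kF (qG n M) K ∧ b ≠ 0 ∧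
        b ∈ (filtO (CC (qG n M) K)).S d ∧
        (U sjk.1 sjk.2.1).coeff sjk.2.2.1 * b ∈ (filtO (CC (qG n M) K)).S d := fun sjk =>
    den hSpo _ ((hUL.gU sjk.1 sjk.2.1).2 sjk.2.2.1)
  choose dd b hb1 hb2 hb4 hb5 using hden
  obtain ⟨d0, hd0⟩ : ∃ d0 : ℕ, ∀ sjk, dd sjk ≤ d0 :=
    fin_bound _ (fun i a b hab h => le_trans h hab) fun i => ⟨_, le_rfl⟩
  obtain ⟨p1, hp1⟩ : ∃ p1 : ℕ, ∀ sjk, ∀ (p : ℕ) [Fact p.Prime], p1 ≤ p → ∀ ι : K →+* ℚ_[p],
      ∃ b' bi' : OO (qG n M) ℤ_[p], mO (qG n M) ι (b sjk) = mO (qG n M) (zq p) b' ∧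
        b' * bi' = 1 :=
    fin_bound _ (fun i a b hab h p _ hp ι => h p (le_trans hab hp) ι)
      fun i => unit_lift hSpo _ (hb1 i) (hb2 i)
  obtain ⟨p2, e, hp2⟩ := hCgp n M D true A K f hG
  -- the elements `κ`
  set E : Type := (A.Bas × A.Bas) ×
    (A.Bas × Sg × Finset.Icc (-(eU : ℤ)) aU × Finset.Icc (-(eY : ℤ)) L × Fin N) with hE
  let κE : E → OO (qG n M) K := fun x => (Y x.1.1 x.2.2.1).coeff x.2.2.2.2.1.1 *
    (b (x.2.1, x.1.2, x.2.2.2.1))⁻¹ ^ ((x.2.2.2.2.2 : ℕ) + 1)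
  let ε : Fin (Fintype.card E) ≃ E := (Fintype.equivFin E).symm
  refine ⟨Fintype.card E, fun x => κE (ε x), (e1 + e2) + ((2 * N + n + 2) + N * d0),
    max (n + 1) (max p1 p2), ?_, ?_⟩
  · intro x
    exact mul_mem ((hYG _ _).2 _) (pow_mem (inv_mem (hb1 _)) _)
  intro p _ hp ι f' Dl U' Ui' Rv' hPL κ' hκ' i j m hm
  have hnp : n + 1 ≤ p := le_trans (le_max_left _ _) hp
  have hpp1 : p1 ≤ p := le_trans (le_trans (le_max_left _ _) (le_max_right _ _)) hp
  have hpp2 : p2 ≤ p := le_trans (le_trans (le_max_right _ _) (le_max_right _ _)) hp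
  obtain ⟨-, hcg⟩ := hp2 p hpp2 ι
  obtain ⟨-, -, -, -, hcrdl, -⟩ := hcg f' hPL.lf
  -- lifts
  have hlU : ∀ s t, mL (qG n M) ι (U s t) = mL (qG n M) (zq p) (U' s t) := fun s t =>
    congrFun (congrFun hPL.lU s) t
  have hlUi : ∀ s t, mL (qG n M) ι (Ui s t) = mL (qG n M) (zq p) (Ui' s t) := fun s t =>
    congrFun (congrFun hPL.lUi s) t
  set Y' : Sg → LL (qG n M) ℤ_[p] :=
    fun σ => ∑ a, Ui' i a * crd A (cgen D f') (mon σ.1) a with hY'def
  have hlY : ∀ σ, mL (qG n M) ι (Y i σ) = mL (qG n M) (zq p) (Y' σ) := by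
    intro σ
    rw [hYdef, hY'def]
    simp only [map_sum, map_mul]
    refine Finset.sum_congr rfl fun a _ => ?_
    rw [hlUi, hcrdl (mon σ.1) (mon σ.1) (by rw [map_mon, map_mon]) a]
  have hbb : ∀ (s : A.Bas) (k : Finset.Icc (-(eU : ℤ)) aU), ∃ b' bi' : OO (qG n M) ℤ_[p],
      mO (qG n M) ι (b (s, j, k)) = mO (qG n M) (zq p) b' ∧ b' * bi' = 1 := fun s k =>
    hp1 (s, j, k) p hpp1 ι
  choose b' bi' hb'1 hb'2 using hbb
  have hpv := Pv_eq (D := D) (N := N) hb3 hpco hFrb hjc A f' Dl U' Ui' hG.hn hG.hM hnp hPL.dl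
    hPL.un Sg hSg i j
  obtain ⟨hk1, g, hk2, hk3⟩ := prime_key hFrb (N := N) Y'
    (fun σ (s : A.Bas) => coeff σ.1 (Psi p (kL (qG n M) ℤ_[p]) (2 * N)
      (Fp (cgen (M := M) D f')) Dl (bb A (cgen D f') s)))
    (fun s => U' s j) e1 e2 d0 (2 * N + n + 2) X eU (-(eY : ℤ)) aU L hL
    (fun σ => lift_ordL (hlY σ) (heY (i, σ)))
    (fun σ l hl => lift_ordO (lift_coeff (hlY σ) l) (he1 (i, σ, ⟨l, hl⟩)))
    (fun σ s => psi_deg hFrb hjc A hG.hn hG.hM f' Dl hnp hPL.dl s σ.1)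
    (fun s => lift_ordL (hlU s j) (heU (s, j)))
    (fun s m hm => lift_zero (hlU s j) (haU s j m hm))
    (fun s k hk => lift_ordO (lift_coeff (hlU s j) k) (he2 (s, j, ⟨k, hk⟩)))
    b' bi' hb'2
    (fun s k => lift_mem (hb'1 s k) ((filtO (CC (qG n M) K)).mono (hd0 _) (hb4 (s, j, k))))
    (fun s k => lift_mem (ι := ι) (x := (U s j).coeff k.1 * b (s, j, k))
      (by rw [map_mul, map_mul, lift_coeff (hlU s j), hb'1])
      ((filtO (CC (qG n M) K)).mono (hd0 _) (hb5 (s, j, k))))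
    m hm
  rw [hY'def] at hk1 hk3
  rw [hpv]
  refine ⟨OrdGe.mono hk1 ?_, fun x => if (ε x).1 = (i, j) then g (ε x).2 else 0, ?_, ?_⟩
  · have : (e1 + e2) * p ≤ ((e1 + e2) + ((2 * N + n + 2) + N * d0)) * p :=
      Nat.mul_le_mul_right _ (by omega)
    omega
  · intro x
    simp only
    split_ifs
    · exact le_trans (hk2 _) (Nat.mul_le_mul_right _ (by omega))
    · rw [Polynomial.natDegree_zero]; exact Nat.zero_le _
  · have hsum : ∑ x : Fin (Fintype.card E),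
        (if (ε x).1 = (i, j) then g (ε x).2 else 0).eval₂ HahnSeries.C
          (wO (qG n M) ℤ_[p]) * phO (qG n M) ℤ_[p] p (κ' x) =
        ∑ y, (g y).eval₂ HahnSeries.C (wO (qG n M) ℤ_[p]) *
          phO (qG n M) ℤ_[p] p ((Y' y.2.1).coeff y.2.2.2.1.1 *
            (bi' y.1 y.2.2.1) ^ ((y.2.2.2.2 : ℕ) + 1)) := by
      have h7 := Equiv.sum_comp ε (fun z : E =>
        (if z.1 = (i, j) then g z.2 else 0).eval₂ HahnSeries.C
          (wO (qG n M) ℤ_[p]) * phO (qG n M) ℤ_[p] p (κ' (ε.symm z)))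
      simp only [Equiv.symm_apply_apply] at h7
      rw [h7, Fintype.sum_prod_type, Finset.sum_eq_single (i, j)]
      · refine Finset.sum_congr rfl fun y _ => ?_
        rw [if_pos rfl]
        congr 2
        apply mO_inj
        rw [← hκ', map_mul, map_pow]
        simp only [Equiv.apply_symm_apply]
        have h8 : (mO (qG n M) ι (b (y.1, j, y.2.2.1)))⁻¹ =
            mO (qG n M) (zq p) (bi' y.1 y.2.2.1) := by
          rw [hb'1]
          apply inv_eq_of_mul_eq_one_right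
          rw [← map_mul, hb'2, map_one]
        rw [map_inv₀, h8, lift_coeff (hlY _), map_mul, map_pow]
      · intro z _ hz
        apply Finset.sum_eq_zero
        intro y _
        rw [if_neg hz, Polynomial.eval₂_zero, zero_mul]
      · intro h; exact absurd (Finset.mem_univ _) h
    rw [hsum]
    exact hk3

end Pool.Agent.Helper95_CM.H17
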