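import Pool.Agent.Helper17_CM.FiltL

/-!
# CM project (MP_31342c_an): module REP, part 3: one prime
-/

set_option autoImplicit false
set_option linter.unusedSectionVars false

noncomputable section

namespace Pool.Agent.Helper95_CM.H17

open Pool.Agent.Helper95_CM

/-- splitting off Frobenius pull backs from an inverse -/
lemma inv_rep {𝒪 : Type} [CommRing 𝒪] (F : Filt 𝒪) (φ : 𝒪 →+* 𝒪) {p d : ℕ} (hp : 0 < p) (N : ℕ)
    (hφ : ∀ a x, x ∈ F.S a → φ x ∈ F.S (p * a)) (hfrob : ∀ x : 𝒪, (p : 𝒪) ∣ φ x - x ^ p)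
    (x b bi : 𝒪) (hb : b * bi = 1) (hbd : b ∈ F.S d) (hxb : x * b ∈ F.S d) :
    ∃ G : Fin N → 𝒪, (∀ r, G r ∈ F.S (N * d * p)) ∧
      (p : 𝒪) ^ N ∣ x - ∑ r : Fin N, G r * φ (bi ^ ((r : ℕ) + 1)) := by
  obtain ⟨y, hy⟩ := hfrob b
  -- `b^p = φ b - p y`
  have h1 : b ^ p = φ b - p * y := by rw [← hy]; ring
  have hpy : (p : 𝒪) * y ∈ F.S (p * d) := by
    rw [← hy]
    exact (F.S (p * d)).sub_mem (hφ d b hbd) (F.pow hbd p)
  have hφb : φ b * φ bi = 1 := by rw [← map_mul, hb, map_one]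
  set u : 𝒪 := p * y * φ bi with hu
  have h2 : b ^ p * φ bi = 1 - u := by
    rw [h1, hu, sub_mul, hφb]
  have h3 : b ^ (p - 1) * b = b ^ p := by
    rw [← pow_succ, Nat.sub_add_cancel hp]
  refine ⟨fun r => x * b * b ^ (p - 1) * (p * y) ^ (r : ℕ), ?_, ?_⟩
  · intro r
    refine F.mono ?_ (F.mul (F.mul hxb (F.pow hbd (p - 1))) (F.pow hpy (r : ℕ)))
    have h4 : d + (p - 1) * d = p * d := by
      obtain ⟨k, rfl⟩ : ∃ k, p = k + 1 := ⟨p - 1, by omega⟩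
      simp only [Nat.add_sub_cancel]
      ring
    rw [h4]
    calc p * d + (r : ℕ) * (p * d) = ((r : ℕ) + 1) * (p * d) := by ring
      _ ≤ N * (p * d) := Nat.mul_le_mul_right _ r.2
      _ = N * d * p := by ring
  · have h4 : ∑ r : Fin N, x * b * b ^ (p - 1) * (p * y) ^ (r : ℕ) * φ (bi ^ ((r : ℕ) + 1)) =
        x * (1 - u ^ N) := by
      have h5 : ∀ r : Fin N, x * b * b ^ (p - 1) * (p * y) ^ (r : ℕ) *
          φ (bi ^ ((r : ℕ) + 1)) = x * (1 - u) * u ^ (r : ℕ) := by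
        intro r
        calc x * b * b ^ (p - 1) * (p * y) ^ (r : ℕ) * φ (bi ^ ((r : ℕ) + 1))
            = x * (b ^ (p - 1) * b * φ bi) * (p * y * φ bi) ^ (r : ℕ) := by
              rw [map_pow, mul_pow, pow_succ]
              ring
          _ = x * (1 - u) * u ^ (r : ℕ) := by rw [h3, h2]
      rw [Finset.sum_congr rfl fun r _ => h5 r, ← Finset.mul_sum,
        Fin.sum_univ_eq_sum_range (fun i => u ^ i) N, mul_assoc, mul_neg_geom_sum]
    rw [h4]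
    refine ⟨x * (y * φ bi) ^ N, ?_⟩
    rw [hu]
    ring

section key
variable {q p : ℕ} [Fact p.Prime]

/-- the Frobenius lift on `OO` -/
lemma phO_frob (hFrb : FrbStmt) (x : OO q ℤ_[p]) :
    (p : OO q ℤ_[p]) ∣ phO q ℤ_[p] p x - x ^ p := by
  obtain ⟨y, hy⟩ := (hFrb q p).1.lift (HahnSeries.C x)
  refine ⟨y.coeff 0, ?_⟩
  have h := congrArg (fun z => HahnSeries.coeff z 0) hy
  rw [natCast_mul_coeff, HahnSeries.coeff_sub, ← map_pow] at h
  have h1 : (phL q ℤ_[p] p (HahnSeries.C x)).coeff 0 = phO q ℤ_[p] p x := by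
    have h2 := phT_coeff (Fact.out : p.Prime).pos (phO q ℤ_[p] p) (HahnSeries.C x) 0
    rw [mul_zero] at h2
    rw [h2]
    congr 1
    rw [HahnSeries.C_apply, HahnSeries.coeff_single_same]
  rw [h1, HahnSeries.C_apply, HahnSeries.coeff_single_same] at h
  exact h

/-- the computation at one prime -/
lemma prime_key (hFrb : FrbStmt) {N : ℕ} {S Sg : Type} [Fintype S] [Fintype Sg]
    (Y : Sg → LL q ℤ_[p]) (Xc : Sg → S → LL q ℤ_[p]) (U : S → LL q ℤ_[p])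
    (e1 e2 d0 d1 X eU : ℕ) (eY aU L : ℤ) (hL : L = (X + eU : ℕ))
    (hY : ∀ σ, OrdGe eY (Y σ))
    (hY1 : ∀ σ, ∀ l ∈ Finset.Icc eY L, OrdGe (-(e1 : ℤ)) ((Y σ).coeff l))
    (hX : ∀ σ s, Xc σ s ∈ (filtLL q ℤ_[p]).S (d1 * p))
    (hU : ∀ s, OrdGe (-(eU : ℤ)) (U s)) (hU2 : ∀ s, ∀ m, aU < m → (U s).coeff m = 0)
    (hU3 : ∀ s, ∀ k ∈ Finset.Icc (-(eU : ℤ)) aU, OrdGe (-(e2 : ℤ)) ((U s).coeff k))
    (b bi : S → (Finset.Icc (-(eU : ℤ)) aU) → OO q ℤ_[p])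
    (hb : ∀ s k, b s k * bi s k = 1) (hbd : ∀ s k, b s k ∈ (filtO (CC q ℤ_[p])).S d0)
    (hUb : ∀ s k, (U s).coeff k.1 * b s k ∈ (filtO (CC q ℤ_[p])).S d0)
    (m : ℤ) (hm : |m| ≤ X * p) :
    OrdGe (-(((e1 + e2) * p : ℕ) : ℤ))
      ((∑ s, ∑ σ, phL q ℤ_[p] p (Y σ) * Xc σ s * U s).coeff m) ∧
    ∃ g : S × Sg × (Finset.Icc (-(eU : ℤ)) aU) × (Finset.Icc eY L) × Fin N →
        Polynomial (CC q ℤ_[p]),
      (∀ e, (g e).natDegree ≤ (d1 + N * d0) * p) ∧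
      (p : OO q ℤ_[p]) ^ N ∣ (∑ s, ∑ σ, phL q ℤ_[p] p (Y σ) * Xc σ s * U s).coeff m -
        ∑ e, (g e).eval₂ HahnSeries.C (wO q ℤ_[p]) *
          phO q ℤ_[p] p ((Y e.2.1).coeff e.2.2.2.1.1 *
            (bi e.1 e.2.2.1) ^ ((e.2.2.2.2 : ℕ) + 1)) := by
  have hp : 0 < p := (Fact.out : p.Prime).pos
  have hp' : (0 : ℤ) < p := by exact_mod_cast hp
  have hm2 : m - (-(eU : ℤ)) < p * (L + 1) := by
    have h1 : m ≤ X * p := le_trans (le_abs_self m) hm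
    rw [hL]
    push_cast
    nlinarith
  have hco : (∑ s, ∑ σ, phL q ℤ_[p] p (Y σ) * Xc σ s * U s).coeff m =
      ∑ s, ∑ σ, ∑ k : Finset.Icc (-(eU : ℤ)) aU, ∑ l : Finset.Icc eY L,
        phO q ℤ_[p] p ((Y σ).coeff l.1) * (Xc σ s).coeff (m - k.1 - p * l.1) *
          (U s).coeff k.1 := by
    rw [HahnSeries.coeff_sum]
    refine Finset.sum_congr rfl fun s _ => ?_
    rw [HahnSeries.coeff_sum]
    refine Finset.sum_congr rfl fun σ _ => ?_
    rw [coeff_triple hp (phO q ℤ_[p] p) (hY σ) (hX σ s).1 (hU s) (hU2 s) hm2]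
    rw [← Finset.sum_coe_sort (Finset.Icc (-(eU : ℤ)) aU)]
    refine Finset.sum_congr rfl fun k _ => ?_
    rw [← Finset.sum_coe_sort (Finset.Icc eY L)]
  rw [hco]
  constructor
  · refine OrdGe.sum _ _ fun s _ => OrdGe.sum _ _ fun σ _ => OrdGe.sum _ _ fun k _ =>
      OrdGe.sum _ _ fun l _ => ?_
    have h1 := (hY1 σ l.1 l.2).phT hp (phC q ℤ_[p] p)
    have h2 := ordGe_of_mem_filtO ((hX σ s).2 (m - k.1 - p * l.1))
    have h3 := (h1.mul h2).mul (hU3 s k.1 k.2)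
    refine OrdGe.mono h3 ?_
    push_cast
    have : (e2 : ℤ) ≤ e2 * p := by
      have : (1 : ℤ) ≤ p := hp'
      nlinarith [Int.natCast_nonneg e2]
    nlinarith
  · have hG : ∀ s (k : Finset.Icc (-(eU : ℤ)) aU), ∃ G : Fin N → OO q ℤ_[p],
        (∀ r, G r ∈ (filtO (CC q ℤ_[p])).S (N * d0 * p)) ∧
        (p : OO q ℤ_[p]) ^ N ∣ (U s).coeff k.1 -
          ∑ r : Fin N, G r * phO q ℤ_[p] p (bi s k ^ ((r : ℕ) + 1)) := fun s k =>
      inv_rep (filtO (CC q ℤ_[p])) (phO q ℤ_[p] p) hp N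
        (fun a x hx => phT_filtO hp _ hx) (phO_frob hFrb) _ _ _ (hb s k) (hbd s k) (hUb s k)
    choose G hG1 hG2 using hG
    have hg : ∀ e : S × Sg × (Finset.Icc (-(eU : ℤ)) aU) × (Finset.Icc eY L) × Fin N,
        ∃ g : Polynomial (CC q ℤ_[p]), g.natDegree ≤ (d1 + N * d0) * p ∧
          g.eval₂ HahnSeries.C (wO q ℤ_[p]) =
            (Xc e.2.1 e.1).coeff (m - e.2.2.1.1 - p * e.2.2.2.1.1) *
              G e.1 e.2.2.1 e.2.2.2.2 := by
      intro e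
      have h1 := (filtO (CC q ℤ_[p])).mul
        ((hX e.2.1 e.1).2 (m - e.2.2.1.1 - p * e.2.2.2.1.1)) (hG1 e.1 e.2.2.1 e.2.2.2.2)
      obtain ⟨g, hg1, hg2⟩ := exists_poly h1
      refine ⟨g, le_trans hg1 (le_of_eq (by ring)), hg2⟩
    choose g hg1 hg2 using hg
    refine ⟨g, hg1, ?_⟩
    have hsum : ∑ e, (g e).eval₂ HahnSeries.C (wO q ℤ_[p]) *
          phO q ℤ_[p] p ((Y e.2.1).coeff e.2.2.2.1.1 *
            (bi e.1 e.2.2.1) ^ ((e.2.2.2.2 : ℕ) + 1)) =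
        ∑ s, ∑ σ, ∑ k : Finset.Icc (-(eU : ℤ)) aU, ∑ l : Finset.Icc eY L,
          phO q ℤ_[p] p ((Y σ).coeff l.1) * (Xc σ s).coeff (m - k.1 - p * l.1) *
            ∑ r : Fin N, G s k r * phO q ℤ_[p] p (bi s k ^ ((r : ℕ) + 1)) := by
      rw [Fintype.sum_prod_type]
      refine Finset.sum_congr rfl fun s _ => ?_
      rw [Fintype.sum_prod_type]
      refine Finset.sum_congr rfl fun σ _ => ?_
      rw [Fintype.sum_prod_type]
      refine Finset.sum_congr rfl fun k _ => ?_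
      rw [Fintype.sum_prod_type]
      refine Finset.sum_congr rfl fun l _ => ?_
      rw [Finset.mul_sum]
      refine Finset.sum_congr rfl fun r _ => ?_
      rw [hg2, map_mul]
      ring
    rw [hsum, ← Finset.sum_sub_distrib]
    refine Finset.dvd_sum fun s _ => ?_
    rw [← Finset.sum_sub_distrib]
    refine Finset.dvd_sum fun σ _ => ?_
    rw [← Finset.sum_sub_distrib]
    refine Finset.dvd_sum fun k _ => ?_
    rw [← Finset.sum_sub_distrib]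
    refine Finset.dvd_sum fun l _ => ?_
    rw [← mul_sub]
    exact (hG2 s k).mul_left _

end key

end Pool.Agent.Helper95_CM.H17
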